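import Pool.Agent.W5h3.TF.Check

set_option autoImplicit false

/-!
# Toads and Frogs: the check is sound
-/

namespace Pool.Agent.W5h3.TF

open Game

/-- the position with toads `T` and frogs `F` -/
def dec (T F : ℕ) : Position 20 := fun i =>
  if T.testBit i.val then .toad else if F.testBit i.val then .frog else .empty

theorem dec_empty {T F : ℕ} {i : Fin 20} (h : dec T F i = .empty) :
    T.testBit i.val = false ∧ F.testBit i.val = false := by
  unfold dec at h
  cases h1 : T.testBit i.val <;> cases h2 : F.testBit i.val <;> simp [h1, h2] at h ⊢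

theorem dec_frog {T F : ℕ} {i : Fin 20} (h : dec T F i = .frog) :
    T.testBit i.val = false ∧ F.testBit i.val = true := by
  unfold dec at h
  cases h1 : T.testBit i.val <;> cases h2 : F.testBit i.val <;> simp [h1, h2] at h ⊢

theorem dec_toad {T F : ℕ} {i : Fin 20} (h : dec T F i = .toad) :
    T.testBit i.val = true := by
  unfold dec at h
  cases h1 : T.testBit i.val <;> cases h2 : F.testBit i.val <;> simp [h1, h2] at h ⊢

theorem testBit_three (j k : ℕ) : (Nat.shiftLeft 3 j).testBit k = decide (k = j ∨ k = j + 1) := by
  change (3 <<< j).testBit k = _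
  rw [Nat.testBit_shiftLeft]
  by_cases h : j ≤ k
  · obtain ⟨e, rfl⟩ := Nat.exists_eq_add_of_le h
    rcases e with _ | _ | e
    · simp
    · have h1 : j + (0 + 1) - j = 1 := by omega
      rw [h1]
      have h2 : Nat.testBit 3 1 = true := by decide
      rw [h2]; simp
    · have h1 : j + (e + 1 + 1) - j = e + 2 := by omega
      have h2 : Nat.testBit 3 (e + 2) = false :=
        Nat.testBit_lt_two_pow (lt_of_lt_of_le (by norm_num)
          (Nat.pow_le_pow_right (by norm_num : 2 > 0) (by omega : 2 ≤ e + 2)))
      rw [h1, h2]
      simp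
  · have : ¬ (k = j ∨ k = j + 1) := by omega
    simp [h, this]

theorem testBit_five (j k : ℕ) : (Nat.shiftLeft 5 j).testBit k = decide (k = j ∨ k = j + 2) := by
  change (5 <<< j).testBit k = _
  rw [Nat.testBit_shiftLeft]
  by_cases h : j ≤ k
  · obtain ⟨e, rfl⟩ := Nat.exists_eq_add_of_le h
    rcases e with _ | _ | _ | e
    · simp
    · have h1 : j + (0 + 1) - j = 1 := by omega
      rw [h1]
      have h2 : Nat.testBit 5 1 = false := by decide
      rw [h2]; simp
    · have h1 : j + (0 + 1 + 1) - j = 2 := by omega
      rw [h1]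
      have h2 : Nat.testBit 5 2 = true := by decide
      rw [h2]; simp
    · have h1 : j + (e + 1 + 1 + 1) - j = e + 3 := by omega
      have h2 : Nat.testBit 5 (e + 3) = false :=
        Nat.testBit_lt_two_pow (lt_of_lt_of_le (by norm_num)
          (Nat.pow_le_pow_right (by norm_num : 2 > 0) (by omega : 3 ≤ e + 3)))
      rw [h1, h2]
      simp
  · have : ¬ (k = j ∨ k = j + 2) := by omega
    simp [h, this]

theorem testBit_xor3 (F j k : ℕ) :
    (Nat.xor F (Nat.shiftLeft 3 j)).testBit k = (F.testBit k ^^ decide (k = j ∨ k = j + 1)) := by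
  change (F ^^^ (Nat.shiftLeft 3 j)).testBit k = _
  rw [Nat.testBit_xor, testBit_three]

theorem testBit_xor5 (F j k : ℕ) :
    (Nat.xor F (Nat.shiftLeft 5 j)).testBit k = (F.testBit k ^^ decide (k = j ∨ k = j + 2)) := by
  change (F ^^^ (Nat.shiftLeft 5 j)).testBit k = _
  rw [Nat.testBit_xor, testBit_five]

/-- toads and frogs are on different squares -/
def Disj (T F : ℕ) : Prop := ∀ i, T.testBit i = true → F.testBit i = false

theorem disj_of_land {T F : ℕ} (h : Nat.land T F = 0) : Disj T F := by
  intro i hi
  have h1 : (T &&& F).testBit i = false := by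
    change (Nat.land T F).testBit i = false
    rw [h]; simp
  rw [Nat.testBit_and, hi] at h1
  simpa using h1

theorem lt_of_bits {F : ℕ} (h : ∀ i, 20 ≤ i → F.testBit i = false) : F < 2 ^ 20 := by
  by_contra hcon
  push Not at hcon
  obtain ⟨i, hi, hb⟩ := Nat.exists_ge_and_testBit_of_ge_two_pow hcon
  rw [h i hi] at hb
  exact absurd hb (by simp)

theorem bits_of_lt {F : ℕ} (h : F < 2 ^ 20) (i : ℕ) (hi : 20 ≤ i) : F.testBit i = false :=
  Nat.testBit_lt_two_pow (lt_of_lt_of_le h (Nat.pow_le_pow_right (by norm_num) hi))

theorem xor3_lt {F j : ℕ} (h : F < 2 ^ 20) (hj : j + 1 < 20) :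
    Nat.xor F (Nat.shiftLeft 3 j) < 2 ^ 20 := by
  apply lt_of_bits
  intro i hi
  rw [testBit_xor3, bits_of_lt h i hi]
  simp
  omega

theorem xor5_lt {F j : ℕ} (h : F < 2 ^ 20) (hj : j + 2 < 20) :
    Nat.xor F (Nat.shiftLeft 5 j) < 2 ^ 20 := by
  apply lt_of_bits
  intro i hi
  rw [testBit_xor5, bits_of_lt h i hi]
  simp
  omega

/-- the effect of a slide of a frog -/
theorem dec_frog_slide {T F : ℕ} (hd : Disj T F) (i j : Fin 20) (hij : i.val = j.val + 1)
    (hi : F.testBit i.val = true) (hjF : F.testBit j.val = false) (hjT : T.testBit j.val = false) :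
    Function.update (Function.update (dec T F) i .empty) j .frog
      = dec T (Nat.xor F (Nat.shiftLeft 3 j.val)) := by
  have hiT : T.testBit i.val = false := by
    by_contra h
    have h' : T.testBit i.val = true := by simpa using h
    rw [hd i.val h'] at hi
    exact absurd hi (by simp)
  funext k
  by_cases hkj : k = j
  · subst hkj
    rw [Function.update_self]
    simp only [dec]; rw [testBit_xor3]; simp [hjT, hjF]
  · rw [Function.update_of_ne hkj]
    have hkj' : k.val ≠ j.val := fun h => hkj (Fin.ext h)
    by_cases hki : k = i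
    · subst hki
      rw [Function.update_self]
      simp only [dec]; rw [testBit_xor3, hiT, hi]; simp [hij]
    · rw [Function.update_of_ne hki]
      have hki' : k.val ≠ i.val := fun h => hki (Fin.ext h)
      have hki'' : k.val ≠ j.val + 1 := by omega
      simp only [dec]; rw [testBit_xor3]; simp [hkj', hki'']

theorem dec_frog_jump {T F : ℕ} (hd : Disj T F) (i k : Fin 20) (hij : i.val = k.val + 2)
    (hi : F.testBit i.val = true) (hjF : F.testBit k.val = false) (hjT : T.testBit k.val = false) :
    Function.update (Function.update (dec T F) i .empty) k .frog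
      = dec T (Nat.xor F (Nat.shiftLeft 5 k.val)) := by
  have hiT : T.testBit i.val = false := by
    by_contra h
    have h' : T.testBit i.val = true := by simpa using h
    rw [hd i.val h'] at hi
    exact absurd hi (by simp)
  funext l
  by_cases hkj : l = k
  · subst hkj
    rw [Function.update_self]
    simp only [dec]; rw [testBit_xor5]; simp [hjT, hjF]
  · rw [Function.update_of_ne hkj]
    have hkj' : l.val ≠ k.val := fun h => hkj (Fin.ext h)
    by_cases hki : l = i
    · subst hki
      rw [Function.update_self]
      simp only [dec]; rw [testBit_xor5, hiT, hi]; simp [hij]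
    · rw [Function.update_of_ne hki]
      have hki' : l.val ≠ i.val := fun h => hki (Fin.ext h)
      have hki'' : l.val ≠ k.val + 2 := by omega
      simp only [dec]; rw [testBit_xor5]; simp [hkj', hki'']

theorem dec_toad_slide {T F : ℕ} (hd : Disj T F) (i j : Fin 20) (hij : j.val = i.val + 1)
    (hi : T.testBit i.val = true) (hjT : T.testBit j.val = false) :
    Function.update (Function.update (dec T F) i .empty) j .toad
      = dec (Nat.xor T (Nat.shiftLeft 3 i.val)) F := by
  have hiF := hd _ hi
  funext k
  by_cases hkj : k = j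
  · subst hkj
    rw [Function.update_self]
    simp only [dec]; rw [testBit_xor3, hjT]; simp [hij]
  · rw [Function.update_of_ne hkj]
    have hkj' : k.val ≠ j.val := fun h => hkj (Fin.ext h)
    by_cases hki : k = i
    · subst hki
      rw [Function.update_self]
      simp only [dec]; rw [testBit_xor3]; simp [hi, hiF]
    · rw [Function.update_of_ne hki]
      have hki' : k.val ≠ i.val := fun h => hki (Fin.ext h)
      have hki'' : k.val ≠ i.val + 1 := by omega
      simp only [dec]; rw [testBit_xor3]; simp [hki', hki'']

theorem dec_toad_jump {T F : ℕ} (hd : Disj T F) (i k : Fin 20) (hik : k.val = i.val + 2)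
    (hi : T.testBit i.val = true) (hkT : T.testBit k.val = false) :
    Function.update (Function.update (dec T F) i .empty) k .toad
      = dec (Nat.xor T (Nat.shiftLeft 5 i.val)) F := by
  have hiF := hd _ hi
  funext l
  by_cases hkj : l = k
  · subst hkj
    rw [Function.update_self]
    simp only [dec]; rw [testBit_xor5, hkT]; simp [hik]
  · rw [Function.update_of_ne hkj]
    have hkj' : l.val ≠ k.val := fun h => hkj (Fin.ext h)
    by_cases hki : l = i
    · subst hki
      rw [Function.update_self]
      simp only [dec]; rw [testBit_xor5]; simp [hi, hiF]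
    · rw [Function.update_of_ne hki]
      have hki' : l.val ≠ i.val := fun h => hki (Fin.ext h)
      have hki'' : l.val ≠ i.val + 2 := by omega
      simp only [dec]; rw [testBit_xor5]; simp [hki', hki'']

theorem rep_sound {t : Tr} {T F m d : ℕ} (hd : Disj T F) (h : rep t T F m d = true) :
    ∃ T', LeftMove (dec T F) (dec T' F) ∧ t.mem (key T' F m) = true := by
  unfold rep at h
  simp only [tb_eq] at h
  cases h1 : T.testBit d
  · rw [h1] at h; exact absurd h (by simp)
  rw [h1] at h
  simp only [cond_true] at h
  cases h2 : T.testBit (d + 1)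
  swap
  · rw [h2] at h; exact absurd h (by simp)
  rw [h2] at h
  simp only [cond_false] at h
  cases h3 : F.testBit (d + 1)
  · -- slide
    rw [h3] at h
    simp only [cond_false] at h
    cases h4 : Nat.ble (d + 2) 20
    · rw [h4] at h; exact absurd h (by simp)
    rw [h4] at h
    simp only [cond_true] at h
    have h4' : d + 2 ≤ 20 := Nat.le_of_ble_eq_true h4
    refine ⟨_, Or.inl ⟨⟨d, by omega⟩, ⟨d + 1, by omega⟩, rfl, ?_, ?_, ?_⟩, h⟩
    · simp [dec, h1]
    · simp [dec, h2, h3]
    · exact (dec_toad_slide hd ⟨d, by omega⟩ ⟨d + 1, by omega⟩ rfl h1 h2).symm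
  · rw [h3] at h
    simp only [cond_true] at h
    cases h4 : Nat.ble (d + 3) 20
    · rw [h4] at h; exact absurd h (by simp)
    rw [h4] at h
    simp only [cond_true] at h
    have h4' : d + 3 ≤ 20 := Nat.le_of_ble_eq_true h4
    cases h5 : T.testBit (d + 2)
    swap
    · rw [h5] at h; exact absurd h (by simp)
    rw [h5] at h
    simp only [cond_false] at h
    cases h6 : F.testBit (d + 2)
    swap
    · rw [h6] at h; exact absurd h (by simp)
    rw [h6] at h
    simp only [cond_false] at h
    refine ⟨_, Or.inr ⟨⟨d, by omega⟩, ⟨d + 1, by omega⟩, ⟨d + 2, by omega⟩, rfl, rfl, ?_, ?_, ?_, ?_⟩,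
      h⟩
    · simp [dec, h1]
    · simp [dec, h2, h3]
    · simp [dec, h5, h6]
    · exact (dec_toad_jump hd ⟨d, by omega⟩ ⟨d + 2, by omega⟩ rfl h1 h5).symm

theorem chk_succ (t : Tr) (T F m i r : ℕ) : chk t T F m (i + 1) r =
      (bif tb F (i + 1) then
        bif tb F i then chk t T F m i r
        else bif tb T i then
          bif Nat.ble 1 i then
            bif tb T (i - 1) then chk t T F m i r
            else bif tb F (i - 1) then chk t T F m i r
            else bif rep t T (Nat.xor F (Nat.shiftLeft 5 (i - 1))) m (Nat.land r 31) then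
              chk t T F m i (Nat.shiftRight r 5) else false
          else chk t T F m i r
        else bif rep t T (Nat.xor F (Nat.shiftLeft 3 i)) m (Nat.land r 31) then
          chk t T F m i (Nat.shiftRight r 5) else false
      else chk t T F m i r) := rfl

theorem chk_sound {t : Tr} {T F m : ℕ} (i : ℕ) : ∀ r, chk t T F m i r = true →
    (∀ j < i, F.testBit (j + 1) = true →
      (F.testBit j = false → T.testBit j = false →
        ∃ d, rep t T (Nat.xor F (Nat.shiftLeft 3 j)) m d = true) ∧
      (F.testBit j = false → T.testBit j = true → 1 ≤ j → T.testBit (j - 1) = false →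
        F.testBit (j - 1) = false →
        ∃ d, rep t T (Nat.xor F (Nat.shiftLeft 5 (j - 1))) m d = true)) ∧
    (m ≠ 0 → ∃ d, rep t T F 0 d = true) := by
  induction i with
  | zero =>
    intro r h
    refine ⟨fun j hj => absurd hj (by omega), fun hm => ⟨r, ?_⟩⟩
    change (bif Nat.beq m 0 then true else rep t T F 0 r) = true at h
    have : Nat.beq m 0 = false := by
      cases hb : Nat.beq m 0
      · rfl
      · exact absurd (Nat.eq_of_beq_eq_true hb) hm
    rw [this] at h
    exact h
  | succ i ih =>
    intro r h
    rw [chk_succ] at h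
    simp only [tb_eq] at h
    -- reduce to the claim for the frog at `i + 1`
    have key : (∃ r', chk t T F m i r' = true) ∧ (F.testBit (i + 1) = true →
      (F.testBit i = false → T.testBit i = false →
        ∃ d, rep t T (Nat.xor F (Nat.shiftLeft 3 i)) m d = true) ∧
      (F.testBit i = false → T.testBit i = true → 1 ≤ i → T.testBit (i - 1) = false →
        F.testBit (i - 1) = false →
        ∃ d, rep t T (Nat.xor F (Nat.shiftLeft 5 (i - 1))) m d = true)) := by
      cases h1 : F.testBit (i + 1)
      · rw [h1] at h
        exact ⟨⟨r, h⟩, fun h' => absurd h' (by simp)⟩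
      rw [h1] at h
      simp only [cond_true] at h
      cases h2 : F.testBit i
      swap
      · rw [h2] at h
        exact ⟨⟨r, h⟩, fun _ => ⟨fun h' => absurd h' (by simp), fun h' => absurd h' (by simp)⟩⟩
      rw [h2] at h
      simp only [cond_false] at h
      cases h3 : T.testBit i
      · rw [h3] at h
        simp only [cond_false] at h
        cases h4 : rep t T (Nat.xor F (Nat.shiftLeft 3 i)) m (Nat.land r 31)
        · rw [h4] at h; exact absurd h (by simp)
        rw [h4] at h
        exact ⟨⟨_, h⟩, fun _ => ⟨fun _ _ => ⟨_, h4⟩, fun _ h' => absurd h' (by simp)⟩⟩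
      · rw [h3] at h
        simp only [cond_true] at h
        cases h4 : Nat.ble 1 i
        · rw [h4] at h
          refine ⟨⟨r, h⟩, fun _ => ⟨fun _ h' => absurd h' (by simp), fun _ _ h' => ?_⟩⟩
          rw [Nat.ble_eq_true_of_le h'] at h4
          exact absurd h4 (by simp)
        rw [h4] at h
        simp only [cond_true] at h
        cases h5 : T.testBit (i - 1)
        swap
        · rw [h5] at h
          exact ⟨⟨r, h⟩, fun _ => ⟨fun _ h' => absurd h' (by simp),
            fun _ _ _ h' => absurd h' (by simp)⟩⟩
        rw [h5] at h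
        simp only [cond_false] at h
        cases h6 : F.testBit (i - 1)
        swap
        · rw [h6] at h
          exact ⟨⟨r, h⟩, fun _ => ⟨fun _ h' => absurd h' (by simp),
            fun _ _ _ _ h' => absurd h' (by simp)⟩⟩
        rw [h6] at h
        simp only [cond_false] at h
        cases h7 : rep t T (Nat.xor F (Nat.shiftLeft 5 (i - 1))) m (Nat.land r 31)
        · rw [h7] at h; exact absurd h (by simp)
        rw [h7] at h
        exact ⟨⟨_, h⟩, fun _ => ⟨fun _ h' => absurd h' (by simp), fun _ _ _ _ _ => ⟨_, h7⟩⟩⟩
    obtain ⟨⟨r', hr'⟩, hi⟩ := key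
    obtain ⟨h1, h2⟩ := ih r' hr'
    refine ⟨fun j hj hF => ?_, h2⟩
    rcases Nat.lt_succ_iff_lt_or_eq.1 hj with hlt | rfl
    · exact h1 j hlt hF
    · exact hi hF

/-- what remains of the game `-1` -/
def rest (m : ℕ) : Game := if m = 0 then neg zero else neg one

theorem toGame_eq {n : ℕ} (p : Position n) : toGame p =
    Game.mk {q : Position n // LeftMove p q} {q : Position n // RightMove p q}
    (fun q => toGame q.1) (fun q => toGame q.1) := by
  rw [toGame]

theorem lw_true {n : ℕ} (p q : Position n) (y : Game) (h : LeftMove p q)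
    (hw : LeftWins (add (toGame q) y) false) : LeftWins (add (toGame p) y) true := by
  cases y with
  | mk yL yR yl yr =>
    rw [toGame_eq p, add_mk]
    exact ⟨Sum.inl ⟨q, h⟩, hw⟩

theorem lw_false {n : ℕ} (p : Position n) (yL yR : Type) (yl : yL → Game) (yr : yR → Game)
    (h1 : ∀ q, RightMove p q → LeftWins (add (toGame q) (mk yL yR yl yr)) true)
    (h2 : ∀ j : yR, LeftWins (add (toGame p) (yr j)) true) :
    LeftWins (add (toGame p) (mk yL yR yl yr)) false := by
  have h2' := h2
  rw [toGame_eq p, add_mk]
  intro j
  rcases j with ⟨q, hq⟩ | j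
  · exact h1 q hq
  · have := h2' j
    rw [toGame_eq p] at this
    exact this

theorem lw_rest {n : ℕ} (p : Position n) (m : ℕ)
    (h1 : ∀ q, RightMove p q → LeftWins (add (toGame q) (rest m)) true)
    (h2 : m ≠ 0 → LeftWins (add (toGame p) (rest 0)) true) :
    LeftWins (add (toGame p) (rest m)) false := by
  unfold rest at *
  rcases Nat.eq_zero_or_pos m with hm | hm
  · rw [if_pos hm] at h1 ⊢
    exact lw_false p _ _ _ _ h1 (fun j => j.elim)
  · rw [if_neg (by omega)] at h1 ⊢
    have h3 := h2 (by omega)
    rw [if_pos rfl] at h3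
    exact lw_false p _ _ _ _ h1 (fun _ => h3)

theorem key_decode {T F m : ℕ} (hF : F < 2 ^ 20) (hm : m < 2) :
    key T F m / 2097152 = T ∧ key T F m / 2 % 1048576 = F ∧ key T F m % 2 = m := by
  unfold key
  norm_num at hF
  omega

theorem main_sound {t : Tr} (hall : t.all (node t) = true) : ∀ (N : ℕ) (T F m : ℕ),
    pot (dec T F) + m = N → F < 2 ^ 20 → m < 2 → t.mem (key T F m) = true →
    LeftWins (add (toGame (dec T F)) (rest m)) false := by
  intro N
  induction N using Nat.strong_induction_on with
  | _ N ih =>
    intro T F m hN hF hm hmem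
    obtain ⟨s, hs⟩ := Tr.exists_of_mem hall hmem
    obtain ⟨e1, e2, e3⟩ := key_decode (T := T) hF hm
    unfold node at hs
    rw [e1, e2, e3] at hs
    cases hb : Nat.beq (Nat.land T F) 0
    · rw [hb] at hs; exact absurd hs (by simp)
    rw [hb] at hs
    simp only [cond_true] at hs
    have hd : Disj T F := disj_of_land (Nat.eq_of_beq_eq_true hb)
    obtain ⟨hfrog, hint⟩ := chk_sound 19 s hs
    -- a reply leads to a won position
    have hreply : ∀ (F' m' d : ℕ), Disj T F' → F' < 2 ^ 20 → m' < 2 →
        pot (dec T F') + m' < N → rep t T F' m' d = true →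
        LeftWins (add (toGame (dec T F')) (rest m')) true := by
      intro F' m' d hd' hF' hm' hlt hrep
      obtain ⟨T', hmove, hmem'⟩ := rep_sound hd' hrep
      have hpot := hmove.pot_lt
      exact lw_true _ _ _ hmove (ih _ (by omega) T' F' m' rfl hF' hm' hmem')
    apply lw_rest
    · intro q hq
      have hpot := hq.pot_lt
      rcases hq with ⟨i, j, hij, hi, hj, rfl⟩ | ⟨i, j, k, hij, hik, hi, hj, hk, rfl⟩
      · -- slide
        have hiF := (dec_frog hi).2
        obtain ⟨hjT, hjF⟩ := dec_empty hj
        have he := dec_frog_slide hd i j hij hiF hjF hjT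
        have hj1 : j.val < 19 := by have := i.2; omega
        rw [hij] at hiF
        obtain ⟨d, hrep⟩ := (hfrog j.val hj1 hiF).1 hjF hjT
        rw [he] at hpot ⊢
        refine hreply _ m d ?_ (xor3_lt hF (by omega)) hm (by omega) hrep
        intro k hk
        rw [testBit_xor3, hd k hk]
        have h1 : k ≠ j.val := by rintro rfl; rw [hjT] at hk; exact absurd hk (by simp)
        have h2 : k ≠ j.val + 1 := by
          rintro rfl
          have := hd _ hk
          rw [hiF] at this; exact absurd this (by simp)
        simp [h1, h2]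
      · have hiF := (dec_frog hi).2
        have hjT := dec_toad hj
        obtain ⟨hkT, hkF⟩ := dec_empty hk
        have he := dec_frog_jump hd i k hik hiF hkF hkT
        have hj1 : j.val < 19 := by have := i.2; omega
        have hjk : j.val - 1 = k.val := by omega
        rw [hij] at hiF
        obtain ⟨d, hrep⟩ := (hfrog j.val hj1 hiF).2 (hd _ hjT) hjT (by omega)
          (by rw [hjk]; exact hkT) (by rw [hjk]; exact hkF)
        rw [he] at hpot ⊢
        rw [hjk] at hrep
        refine hreply _ m d ?_ (xor5_lt hF (by omega)) hm (by omega) hrep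
        intro l hl
        rw [testBit_xor5, hd l hl]
        have h1 : l ≠ k.val := by rintro rfl; rw [hkT] at hl; exact absurd hl (by simp)
        have h2 : l ≠ k.val + 2 := by
          rintro rfl
          have := hd _ hl
          rw [show k.val + 2 = j.val + 1 by omega, hiF] at this; exact absurd this (by simp)
        simp [h1, h2]
    · intro hm0
      obtain ⟨d, hrep⟩ := hint hm0
      exact hreply F 0 d hd hF (by norm_num) (by omega) hrep

end Pool.Agent.W5h3.TF
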