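import Pool.Agent.W5h3.TF.Data
import Pool.Agent.W5h3.TF.Sound

set_option autoImplicit false
set_option maxRecDepth 100000

namespace Pool.Agent.W5h3.TF

theorem root_all : Data.root.all (node Data.root) = true := by decide +kernel

end Pool.Agent.W5h3.TF
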