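import Pool.Agent.W5h3.TF.Defs

set_option autoImplicit false

/-!
# Toads and Frogs: checking a strategy of Left
-/

namespace Pool.Agent.W5h3.TF

set_option linter.constructorNameAsVariable false

noncomputable section

/-- Search trees: each node carries a key (a position) and a list of replies. -/
inductive Tr
  | l : Tr
  | n : Tr → ℕ → ℕ → Tr → Tr

/-- bit `i` of `x` -/
def tb (x i : ℕ) : Bool := Nat.beq (Nat.land (Nat.shiftRight x i) 1) 1

theorem tb_eq (x i : ℕ) : tb x i = x.testBit i := by
  unfold tb
  rw [Nat.testBit_eq_decide_div_mod_eq]
  have h1 : Nat.land (Nat.shiftRight x i) 1 = x / 2 ^ i % 2 := by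
    change (x >>> i) &&& 1 = _
    rw [Nat.and_one_is_mod, Nat.shiftRight_eq_div_pow]
  rw [h1]
  by_cases h : x / 2 ^ i % 2 = 1
  · rw [h]; decide
  · rw [decide_eq_false h]
    have : x / 2 ^ i % 2 = 0 := by omega
    rw [this]; decide

/-- membership of the key `x` -/
def Tr.mem (t : Tr) : ℕ → Bool :=
  Tr.rec (motive := fun _ => ℕ → Bool) (fun _ => false)
    (fun _ k _ _ ihl ihr x =>
      bif Nat.beq x k then true else bif Nat.ble x k then ihl x else ihr x) t

theorem Tr.mem_node (l r : Tr) (k s x : ℕ) :
    (Tr.n l k s r).mem x =
      bif Nat.beq x k then true else bif Nat.ble x k then l.mem x else r.mem x := rfl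

/-- all nodes satisfy `f` -/
def Tr.all (f : ℕ → ℕ → Bool) (t : Tr) : Bool :=
  Tr.rec (motive := fun _ => Bool) true
    (fun _ k s _ ihl ihr => bif f k s then (bif ihl then ihr else false) else false) t

theorem Tr.all_node (f : ℕ → ℕ → Bool) (l r : Tr) (k s : ℕ) :
    (Tr.n l k s r).all f = bif f k s then (bif l.all f then r.all f else false) else false := rfl

theorem Tr.exists_of_mem {f : ℕ → ℕ → Bool} {t : Tr} (hall : t.all f = true) {x : ℕ}
    (h : t.mem x = true) : ∃ s, f x s = true := by
  induction t with
  | l => exact absurd h (by simp [Tr.mem])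
  | n l k s r ihl ihr =>
    rw [Tr.mem_node] at h
    rw [Tr.all_node] at hall
    cases hf : f k s
    · rw [hf] at hall; exact absurd hall (by simp)
    · rw [hf] at hall
      simp only [cond_true] at hall
      cases hl : l.all f
      · rw [hl] at hall; exact absurd hall (by simp)
      · rw [hl] at hall
        simp only [cond_true] at hall
        cases hb : Nat.beq x k
        · rw [hb] at h
          simp only [cond_false] at h
          cases hc : Nat.ble x k
          · rw [hc] at h; exact ihr hall h
          · rw [hc] at h; exact ihl hl h
        · have : x = k := Nat.eq_of_beq_eq_true hb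
          rw [this]
          exact ⟨s, hf⟩

/-- the key of the position with toads `T`, frogs `F` and integer part `m` -/
def key (T F m : ℕ) : ℕ := m + 2 * (F + 1048576 * T)

/-- Left's reply with the toad at `d` leads into the tree -/
def rep (t : Tr) (T F m d : ℕ) : Bool :=
  bif tb T d then
    bif tb T (d + 1) then false
    else bif tb F (d + 1) then
      bif Nat.ble (d + 3) 20 then
        bif tb T (d + 2) then false
        else bif tb F (d + 2) then false
        else t.mem (key (Nat.xor T (Nat.shiftLeft 5 d)) F m)
      else false
    else bif Nat.ble (d + 2) 20 then t.mem (key (Nat.xor T (Nat.shiftLeft 3 d)) F m)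
    else false
  else false

/-- all moves of Right with the frogs at `1, …, i` and with the integer are answered -/
def chk (t : Tr) (T F m : ℕ) (i : ℕ) : ℕ → Bool :=
  Nat.rec (motive := fun _ => ℕ → Bool)
    (fun r => bif Nat.beq m 0 then true else rep t T F 0 r)
    (fun i ih r =>
      bif tb F (i + 1) then
        bif tb F i then ih r
        else bif tb T i then
          bif Nat.ble 1 i then
            bif tb T (i - 1) then ih r
            else bif tb F (i - 1) then ih r
            else bif rep t T (Nat.xor F (Nat.shiftLeft 5 (i - 1))) m (Nat.land r 31) then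
              ih (Nat.shiftRight r 5) else false
          else ih r
        else bif rep t T (Nat.xor F (Nat.shiftLeft 3 i)) m (Nat.land r 31) then
          ih (Nat.shiftRight r 5) else false
      else ih r) i

/-- check of one node -/
def node (t : Tr) (k s : ℕ) : Bool :=
  bif Nat.beq (Nat.land (k / 2097152) ((k / 2) % 1048576)) 0 then
    chk t (k / 2097152) ((k / 2) % 1048576) (k % 2) 19 s
  else false

end

end Pool.Agent.W5h3.TF
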