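import Mathlib

set_option autoImplicit false

/-!
# Toads and Frogs: games, outcomes, values
-/

namespace Pool.Agent.W5h3.TF

/-- Partizan games: `mk L R l r` is the game `{l i | r j}` with left options `l i` for `i : L` and
right options `r j` for `j : R`. -/
inductive Game : Type 1
  | mk (L R : Type) (l : L → Game) (r : R → Game) : Game

namespace Game

/-- The negative `-G`: the roles of Left and Right are exchanged. -/
def neg : Game → Game
  | mk L R l r => mk R L (fun j => neg (r j)) (fun i => neg (l i))

/-- The disjunctive sum `G + H`: the mover makes a move in exactly one of the two summands. -/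
noncomputable def add (x : Game) : Game → Game :=
  Game.rec (motive := fun _ => Game → Game)
    (fun xL xR xl xr ihl ihr y =>
      Game.rec (motive := fun _ => Game)
        (fun yL yR yl yr jhl jhr =>
          mk (xL ⊕ yL) (xR ⊕ yR)
            (Sum.elim (fun i => ihl i (mk yL yR yl yr)) jhl)
            (Sum.elim (fun i => ihr i (mk yL yR yl yr)) jhr)) y) x

theorem add_mk (xL xR yL yR : Type) (xl : xL → Game) (xr : xR → Game) (yl : yL → Game)
    (yr : yR → Game) :
    add (mk xL xR xl xr) (mk yL yR yl yr) =
      mk (xL ⊕ yL) (xR ⊕ yR)
        (Sum.elim (fun i => add (xl i) (mk yL yR yl yr)) (fun j => add (mk xL xR xl xr) (yl j)))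
        (Sum.elim (fun i => add (xr i) (mk yL yR yl yr)) (fun j => add (mk xL xR xl xr) (yr j))) :=
  rfl

/-- `LeftWins G true`: Left, moving first, can win `G` under normal play (a player with no legal
move loses).  `LeftWins G false`: Left can win `G` when Right moves first. -/
def LeftWins : Game → Bool → Prop
  | mk L _ l _, true => ∃ i : L, LeftWins (l i) false
  | mk _ R _ r, false => ∀ j : R, LeftWins (r j) true

/-- `RightWins G true`: Right can win `G` when Left moves first.  `RightWins G false`: Right,
moving first, can win `G`. -/
def RightWins : Game → Bool → Prop
  | mk L _ l _, true => ∀ i : L, RightWins (l i) false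
  | mk _ R _ r, false => ∃ j : R, RightWins (r j) true

/-- The second player wins: Left wins if Right moves first and Right wins if Left moves first. -/
def SecondPlayerWins (G : Game) : Prop := LeftWins G false ∧ RightWins G true

/-- Equality of values: `G - H` is a second-player win. -/
def Equal (G H : Game) : Prop := SecondPlayerWins (add G (neg H))

/-- `0 = { | }`. -/
def zero : Game := mk Empty Empty Empty.elim Empty.elim

/-- `1 = {0 | }`. -/
def one : Game := mk Unit Empty (fun _ => zero) Empty.elim

/-- `1* = {1 | 1}`. -/
def oneStar : Game := mk Unit Unit (fun _ => one) (fun _ => one)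

end Game

/-- The contents of a square of the strip. -/
inductive Cell
  | empty
  | toad
  | frog
  deriving DecidableEq

/-- A position on a strip of `n` squares, numbered `0, …, n - 1` from left to right. -/
abbrev Position (n : ℕ) := Fin n → Cell

/-- Left's moves: a toad slides one square to the right into an empty square, or jumps over exactly
one frog into the empty square immediately beyond. -/
def LeftMove {n : ℕ} (p q : Position n) : Prop :=
  (∃ i j : Fin n, j.val = i.val + 1 ∧ p i = .toad ∧ p j = .empty ∧
    q = Function.update (Function.update p i .empty) j .toad) ∨
  (∃ i j k : Fin n, j.val = i.val + 1 ∧ k.val = i.val + 2 ∧ p i = .toad ∧ p j = .frog ∧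
    p k = .empty ∧ q = Function.update (Function.update p i .empty) k .toad)

/-- Right's moves: a frog slides one square to the left into an empty square, or jumps over exactly
one toad into the empty square immediately beyond. -/
def RightMove {n : ℕ} (p q : Position n) : Prop :=
  (∃ i j : Fin n, i.val = j.val + 1 ∧ p i = .frog ∧ p j = .empty ∧
    q = Function.update (Function.update p i .empty) j .frog) ∨
  (∃ i j k : Fin n, i.val = j.val + 1 ∧ i.val = k.val + 2 ∧ p i = .frog ∧ p j = .toad ∧
    p k = .empty ∧ q = Function.update (Function.update p i .empty) k .frog)

/-- The total number of squares which the toads have to their right and the frogs to their left. -/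
def potW {n : ℕ} (c : Cell) (i : Fin n) : ℕ :=
  match c with
  | .empty => 0
  | .toad => n - i.val
  | .frog => i.val

/-- A bound for the number of moves which are left. -/
def pot {n : ℕ} (p : Position n) : ℕ := ∑ i : Fin n, potW (p i) i

theorem pot_update {n : ℕ} (p : Position n) (i : Fin n) (c : Cell) :
    pot (Function.update p i c) + potW (p i) i = pot p + potW c i := by
  classical
  unfold pot
  rw [← Finset.add_sum_erase Finset.univ (fun k => potW (Function.update p i c k) k)
      (Finset.mem_univ i),
    ← Finset.add_sum_erase Finset.univ (fun k => potW (p k) k) (Finset.mem_univ i)]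
  have : ∑ x ∈ Finset.univ.erase i, potW (Function.update p i c x) x =
      ∑ x ∈ Finset.univ.erase i, potW (p x) x := by
    refine Finset.sum_congr rfl fun x hx => ?_
    rw [Function.update_of_ne (Finset.ne_of_mem_erase hx)]
  rw [this]
  simp only [Function.update_self]
  omega

theorem LeftMove.pot_lt {n : ℕ} {p q : Position n} (h : LeftMove p q) : pot q < pot p := by
  rcases h with ⟨i, j, hij, hi, hj, rfl⟩ | ⟨i, j, k, hij, hik, hi, hj, hk, rfl⟩
  · have h1 := pot_update p i .empty
    have hne : j ≠ i := by intro h; rw [h] at hij; omega
    have h2 := pot_update (Function.update p i .empty) j .toad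
    rw [Function.update_of_ne hne, hj] at h2
    rw [hi] at h1
    simp only [potW] at h1 h2
    have := j.2
    omega
  · have h1 := pot_update p i .empty
    have hne : k ≠ i := by intro h; rw [h] at hik; omega
    have h2 := pot_update (Function.update p i .empty) k .toad
    rw [Function.update_of_ne hne, hk] at h2
    rw [hi] at h1
    simp only [potW] at h1 h2
    have := k.2
    omega

theorem RightMove.pot_lt {n : ℕ} {p q : Position n} (h : RightMove p q) : pot q < pot p := by
  rcases h with ⟨i, j, hij, hi, hj, rfl⟩ | ⟨i, j, k, hij, hik, hi, hj, hk, rfl⟩
  · have h1 := pot_update p i .empty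
    have hne : j ≠ i := by intro h; rw [h] at hij; omega
    have h2 := pot_update (Function.update p i .empty) j .frog
    rw [Function.update_of_ne hne, hj] at h2
    rw [hi] at h1
    simp only [potW] at h1 h2
    omega
  · have h1 := pot_update p i .empty
    have hne : k ≠ i := by intro h; rw [h] at hik; omega
    have h2 := pot_update (Function.update p i .empty) k .frog
    rw [Function.update_of_ne hne, hk] at h2
    rw [hi] at h1
    simp only [potW] at h1 h2
    omega

/-- The game played from the position `p`. -/
def toGame {n : ℕ} (p : Position n) : Game :=
  Game.mk {q : Position n // LeftMove p q} {q : Position n // RightMove p q}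
    (fun q => toGame q.1) (fun q => toGame q.1)
termination_by pot p
decreasing_by
  · exact q.2.pot_lt
  · exact q.2.pot_lt

/-- The position `T^a □^b F^c` (`a` toads, then `b` empty squares, then `c` frogs). -/
def start (a b c : ℕ) : Position (a + b + c) := fun i =>
  if i.val < a then .toad else if i.val < a + b then .empty else .frog

end Pool.Agent.W5h3.TF
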